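import Pool.Agent.H958.RO.Stm

/-!
# Project RO: paths sharing an edge with a given path (`S_PAIRS`)
-/

set_option autoImplicit false

namespace Pool.Agent.H278.RO.Pairs

open Finset
open scoped Classical
open Pool.Agent.W830.RD (Om gle Pr Rlz)
open Pool.Agent.H958.RO

noncomputable section

/-- the `i`-th edge of a sequence -/
def ee {n m : ℕ} (w : Fin (m + 1) → Fin n) (i : Fin m) : Fin n × Fin n :=
  (min (w i.castSucc) (w i.succ), max (w i.castSucc) (w i.succ))

lemma ed_eq {n m : ℕ} (w : Fin (m + 1) → Fin n) : ed w = univ.image (ee w) := rfl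

lemma mm {α : Type} [LinearOrder α] {a b c d : α} (h : (min a b, max a b) = (min c d, max c d)) :
    (a = c ∧ b = d) ∨ (a = d ∧ b = c) := by
  have h1 : min a b = min c d := (Prod.ext_iff.1 h).1
  have h2 : max a b = max c d := (Prod.ext_iff.1 h).2
  rcases le_total a b with hab | hab <;> rcases le_total c d with hcd | hcd
  · rw [min_eq_left hab, min_eq_left hcd] at h1
    rw [max_eq_right hab, max_eq_right hcd] at h2
    exact Or.inl ⟨h1, h2⟩
  · rw [min_eq_left hab, min_eq_right hcd] at h1
    rw [max_eq_right hab, max_eq_left hcd] at h2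
    exact Or.inr ⟨h1, h2⟩
  · rw [min_eq_right hab, min_eq_left hcd] at h1
    rw [max_eq_left hab, max_eq_right hcd] at h2
    exact Or.inr ⟨h2, h1⟩
  · rw [min_eq_right hab, min_eq_right hcd] at h1
    rw [max_eq_left hab, max_eq_left hcd] at h2
    exact Or.inl ⟨h2, h1⟩

lemma ee_inj {n m : ℕ} (w : Fin (m + 1) → Fin n) (hw : Function.Injective w) :
    Function.Injective (ee w) := by
  intro i j hij
  rcases mm hij with h | h
  · exact Fin.castSucc_injective _ (hw h.1)
  · have h1 := congrArg Fin.val (hw h.1)
    have h2 := congrArg Fin.val (hw h.2)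
    rw [Fin.val_castSucc, Fin.val_succ] at h1
    rw [Fin.val_castSucc, Fin.val_succ] at h2
    omega

lemma ed_card {n m : ℕ} (w : Fin (m + 1) → Fin n) (hw : Function.Injective w) :
    (ed w).card = m := by
  rw [ed_eq, card_image_of_injective _ (ee_inj w hw), card_univ, Fintype.card_fin]

/-- the indices of the edges which belong to `w` -/
def JJ {n m : ℕ} (w w' : Fin (m + 1) → Fin n) : Finset (Fin m) :=
  univ.filter fun i => ee w' i ∈ ed w

lemma inter_card {n m : ℕ} (w w' : Fin (m + 1) → Fin n) (hw' : Function.Injective w') :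
    (ed w ∩ ed w').card = (JJ w w').card := by
  have : ed w ∩ ed w' = (JJ w w').image (ee w') := by
    ext x
    simp only [mem_inter, JJ, mem_image, mem_filter, mem_univ, true_and]
    constructor
    · rintro ⟨h1, h2⟩
      rw [ed_eq, mem_image] at h2
      obtain ⟨i, -, rfl⟩ := h2
      exact ⟨i, h1, rfl⟩
    · rintro ⟨i, h1, rfl⟩
      refine ⟨h1, ?_⟩
      rw [ed_eq]
      exact mem_image_of_mem _ (mem_univ _)
  rw [this, card_image_of_injective _ (ee_inj w' hw')]

lemma mem_w {n m : ℕ} (w w' : Fin (m + 1) → Fin n) (i : Fin m) (h : i ∈ JJ w w') :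
    w' i.castSucc ∈ univ.image w ∧ w' i.succ ∈ univ.image w := by
  have h1 := (mem_filter.1 h).2
  rw [ed_eq, mem_image] at h1
  obtain ⟨j, -, hj⟩ := h1
  rcases mm hj with h | h
  · exact ⟨by rw [← h.1]; exact mem_image_of_mem _ (mem_univ _),
      by rw [← h.2]; exact mem_image_of_mem _ (mem_univ _)⟩
  · exact ⟨by rw [← h.2]; exact mem_image_of_mem _ (mem_univ _),
      by rw [← h.1]; exact mem_image_of_mem _ (mem_univ _)⟩

/-- the indices of the vertices of the edges with index in `A` -/
def PP {m : ℕ} (A : Finset (Fin m)) : Finset (Fin (m + 1)) :=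
  A.image Fin.castSucc ∪ A.image Fin.succ

lemma PP_card {m : ℕ} (A : Finset (Fin m)) (hA : A.Nonempty) : A.card + 1 ≤ (PP A).card := by
  set j := A.min' hA with hj
  have h1 : j ∈ A := A.min'_mem hA
  have h2 : j.castSucc ∉ A.image Fin.succ := by
    intro h
    obtain ⟨i, hi, hij⟩ := mem_image.1 h
    have h3 := A.min'_le i hi
    have h4 := congrArg Fin.val hij
    rw [Fin.val_castSucc, Fin.val_succ] at h4
    have h5 : (j : ℕ) ≤ i := h3
    omega
  have h3 : insert j.castSucc (A.image Fin.succ) ⊆ PP A := by
    intro x hx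
    rw [mem_insert] at hx
    rcases hx with rfl | hx
    · exact mem_union_left _ (mem_image_of_mem _ h1)
    · exact mem_union_right _ hx
  have h4 := card_le_card h3
  rw [card_insert_of_notMem h2, card_image_of_injective _ (Fin.succ_injective _)] at h4
  exact h4

lemma fib_card {n m : ℕ} (hn : 0 < n) (w : Fin (m + 1) → Fin n) (hw : Function.Injective w)
    (A : Finset (Fin m)) (hA : A.Nonempty) :
    ((Inj n m).filter (fun w' => JJ w w' = A)).card ≤ (m + 1) ^ (m + 1) * n ^ (m - A.card) := by
  have h1 : (Inj n m).filter (fun w' => JJ w w' = A) ⊆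
      Fintype.piFinset fun j => if j ∈ PP A then univ.image w else univ := by
    intro w' hw'
    have h2 := (mem_filter.1 hw').2
    rw [Fintype.mem_piFinset]
    intro j
    by_cases hj : j ∈ PP A
    · rw [if_pos hj]
      rcases mem_union.1 hj with h | h
      · obtain ⟨i, hi, rfl⟩ := mem_image.1 h
        rw [← h2] at hi
        exact (mem_w w w' i hi).1
      · obtain ⟨i, hi, rfl⟩ := mem_image.1 h
        rw [← h2] at hi
        exact (mem_w w w' i hi).2
    · rw [if_neg hj]
      exact mem_univ _
  refine (card_le_card h1).trans ?_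
  rw [Fintype.card_piFinset]
  have h2 : ∀ j : Fin (m + 1), (if j ∈ PP A then univ.image w else univ : Finset (Fin n)).card =
      if j ∈ PP A then m + 1 else n := by
    intro j
    split_ifs
    · rw [card_image_of_injective _ hw, card_univ, Fintype.card_fin]
    · rw [card_univ, Fintype.card_fin]
  rw [prod_congr rfl fun j _ => h2 j, prod_ite, prod_const, prod_const]
  have h3 : (univ.filter fun j => j ∈ PP A) = PP A := by
    ext j
    simp
  have h4 : (univ.filter fun j => j ∉ PP A).card = m + 1 - (PP A).card := by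
    rw [filter_not, h3, card_sdiff_of_subset (subset_univ _), card_univ, Fintype.card_fin]
  have h5 : (PP A).card ≤ m + 1 := by
    have := card_le_univ (PP A)
    rwa [Fintype.card_fin] at this
  have h6 := PP_card A hA
  rw [h3, h4]
  refine Nat.mul_le_mul (Nat.pow_le_pow_right (Nat.succ_pos m) h5) ?_
  exact Nat.pow_le_pow_right hn (by omega)

theorem main : Pool.Agent.H958.RO.S_PAIRS := by
  intro c n m w hc hcn hw
  have hn' : (0 : ℝ) < n := hc.trans hcn
  have hn : 0 < n := by exact_mod_cast hn'
  have hp : 0 < c / (n : ℝ) := div_pos hc hn'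
  have hmx : (1 : ℝ) ≤ max 1 c := le_max_left _ _
  have key : ∀ A : Finset (Fin m),
      ∑ w' ∈ ((Inj n m).filter (fun w' => ¬ Disjoint (ed w) (ed w'))).filter
        (fun w' => JJ w w' = A), (c / n : ℝ) ^ (ed w ∪ ed w').card ≤
      ((m + 1 : ℕ) : ℝ) ^ (m + 1) * (max 1 c) ^ m * (c / n) ^ m := by
    intro A
    rcases A.eq_empty_or_nonempty with hA | hA
    · have : ((Inj n m).filter (fun w' => ¬ Disjoint (ed w) (ed w'))).filter
          (fun w' => JJ w w' = A) = ∅ := by
        rw [eq_empty_iff_forall_notMem]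
        intro w' hw'
        rw [mem_filter, mem_filter] at hw'
        obtain ⟨⟨h1, h2⟩, h3⟩ := hw'
        have h4 := inter_card w w' (mem_filter.1 h1).2
        rw [h3, hA, card_empty, card_eq_zero] at h4
        exact h2 (disjoint_iff_inter_eq_empty.2 h4)
      rw [this, sum_empty]
      positivity
    · have hAm : A.card ≤ m := by
        have := card_le_univ A
        rwa [Fintype.card_fin] at this
      have h1 : ∀ w' ∈ ((Inj n m).filter (fun w' => ¬ Disjoint (ed w) (ed w'))).filter
          (fun w' => JJ w w' = A), (c / n : ℝ) ^ (ed w ∪ ed w').card =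
            (c / n : ℝ) ^ (m - A.card) * (c / n) ^ m := by
        intro w' hw'
        rw [mem_filter, mem_filter] at hw'
        obtain ⟨⟨h1, h2⟩, h3⟩ := hw'
        have hw'i := (mem_filter.1 h1).2
        have h4 := inter_card w w' hw'i
        have h5 := card_union_add_card_inter (ed w) (ed w')
        rw [ed_card w hw, ed_card w' hw'i, h4, h3] at h5
        rw [← pow_add]
        congr 1
        omega
      rw [sum_congr rfl h1, sum_const, nsmul_eq_mul]
      have h2 : ((((Inj n m).filter (fun w' => ¬ Disjoint (ed w) (ed w'))).filter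
          (fun w' => JJ w w' = A)).card : ℝ) ≤ ((m + 1 : ℕ) : ℝ) ^ (m + 1) *
            (n : ℝ) ^ (m - A.card) := by
        have h3 : (((Inj n m).filter (fun w' => ¬ Disjoint (ed w) (ed w'))).filter
          (fun w' => JJ w w' = A)).card ≤ (m + 1) ^ (m + 1) * n ^ (m - A.card) := by
          refine (card_le_card ?_).trans (fib_card hn w hw A hA)
          exact filter_subset_filter _ (filter_subset _ _)
        exact_mod_cast h3
      have h3 : (n : ℝ) ^ (m - A.card) * (c / n : ℝ) ^ (m - A.card) = c ^ (m - A.card) := by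
        rw [← mul_pow, mul_div_cancel₀ _ hn'.ne']
      have h4 : c ^ (m - A.card) ≤ (max 1 c) ^ m := by
        calc c ^ (m - A.card) ≤ (max 1 c) ^ (m - A.card) :=
              pow_le_pow_left₀ hc.le (le_max_right _ _) _
          _ ≤ (max 1 c) ^ m := pow_le_pow_right₀ hmx (Nat.sub_le _ _)
      calc _ ≤ ((m + 1 : ℕ) : ℝ) ^ (m + 1) * (n : ℝ) ^ (m - A.card) *
            ((c / n : ℝ) ^ (m - A.card) * (c / n) ^ m) :=
            mul_le_mul_of_nonneg_right h2 (by positivity)
        _ = ((m + 1 : ℕ) : ℝ) ^ (m + 1) *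
            ((n : ℝ) ^ (m - A.card) * (c / n : ℝ) ^ (m - A.card)) * (c / n) ^ m := by ring
        _ = ((m + 1 : ℕ) : ℝ) ^ (m + 1) * c ^ (m - A.card) * (c / n) ^ m := by rw [h3]
        _ ≤ _ := by
            refine mul_le_mul_of_nonneg_right ?_ (by positivity)
            exact mul_le_mul_of_nonneg_left h4 (by positivity)
  rw [← sum_fiberwise_of_maps_to (s := (Inj n m).filter (fun w' => ¬ Disjoint (ed w) (ed w')))
    (t := (univ : Finset (Finset (Fin m)))) (g := fun w' => JJ w w') (fun _ _ => mem_univ _)]
  refine (sum_le_sum fun A _ => key A).trans ?_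
  rw [sum_const, card_univ, Fintype.card_finset, Fintype.card_fin, nsmul_eq_mul]
  push_cast
  apply le_of_eq
  ring

end

end Pool.Agent.H278.RO.Pairs
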